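import Pool.Agent.Y245.SG.Stm

/-!
Project SG (helper245), part SG-UP (job 7276, helper542): upper bound of the derivatives of the forms.
-/

set_option autoImplicit false

open Complex Polynomial Filter Topology

namespace Pool.Agent.Y542.SG

open Pool.Agent.Y245.SG

theorem fac_le {q n m k : ℕ} (hn : 1 ≤ n) (hm : m ≤ n) (hk : k ≤ q + m) (r : ℝ) (hr : (m : ℝ) ≤ r) :
    (k.factorial : ℝ) ≤ (2 ^ (q + 1) * (q.factorial : ℝ)) ^ n * (n : ℝ) ^ r := by
  have hn' : (1 : ℝ) ≤ n := by exact_mod_cast hn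
  have h1 : k.factorial ≤ 2 ^ (q + m) * q.factorial * m.factorial := by
    refine (Nat.factorial_le hk).trans ?_
    rw [← Nat.add_choose_mul_factorial_mul_factorial q m]
    exact Nat.mul_le_mul_right _ (Nat.mul_le_mul_right _ (Nat.choose_le_two_pow _ _))
  have h2 : (m.factorial : ℝ) ≤ (n : ℝ) ^ r := by
    have h3 : (m.factorial : ℝ) ≤ (n : ℝ) ^ m := by
      have : m.factorial ≤ n ^ m := (Nat.factorial_le_pow m).trans (Nat.pow_le_pow_left hm m)
      exact_mod_cast this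
    refine h3.trans ?_
    rw [← Real.rpow_natCast]
    exact Real.rpow_le_rpow_of_exponent_le hn' hr
  have h4 : (1 : ℝ) ≤ 2 ^ (q + 1) * (q.factorial : ℝ) := by
    have : 1 ≤ 2 ^ (q + 1) * q.factorial := Nat.mul_pos (by positivity) (Nat.factorial_pos q)
    exact_mod_cast this
  have h5 : (2 : ℝ) ^ (q + m) * (q.factorial : ℝ) ≤ (2 ^ (q + 1) * (q.factorial : ℝ)) ^ n := by
    obtain ⟨j, rfl⟩ : ∃ j, n = j + 1 := ⟨n - 1, by omega⟩
    have h6 : (2 : ℝ) ^ (j + 1) ≤ 2 * (2 ^ (q + 1) * (q.factorial : ℝ)) ^ j := by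
      rw [pow_succ, mul_comm]
      refine mul_le_mul_of_nonneg_left (pow_le_pow_left₀ (by norm_num) ?_ j) (by norm_num)
      have h7 : (1 : ℝ) ≤ 2 ^ q * (q.factorial : ℝ) := by
        have : 1 ≤ 2 ^ q * q.factorial := Nat.mul_pos (by positivity) (Nat.factorial_pos q)
        exact_mod_cast this
      rw [pow_succ]
      nlinarith
    calc (2 : ℝ) ^ (q + m) * (q.factorial : ℝ) = 2 ^ m * (2 ^ q * (q.factorial : ℝ)) := by
          rw [pow_add]; ring
      _ ≤ 2 ^ (j + 1) * (2 ^ q * (q.factorial : ℝ)) := by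
          refine mul_le_mul_of_nonneg_right (pow_le_pow_right₀ (by norm_num) hm) (by positivity)
      _ ≤ (2 * (2 ^ (q + 1) * (q.factorial : ℝ)) ^ j) * (2 ^ q * (q.factorial : ℝ)) :=
          mul_le_mul_of_nonneg_right h6 (by positivity)
      _ = (2 ^ (q + 1) * (q.factorial : ℝ)) ^ (j + 1) := by
          rw [pow_succ (2 ^ (q + 1) * (q.factorial : ℝ)) j, pow_succ (2 : ℝ) q]; ring
  calc (k.factorial : ℝ) ≤ 2 ^ (q + m) * q.factorial * m.factorial := by exact_mod_cast h1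
    _ ≤ (2 ^ (q + 1) * (q.factorial : ℝ)) ^ n * (n : ℝ) ^ r :=
        mul_le_mul h5 h2 (by positivity) (by positivity)

theorem inv_fac_le {n T D : ℕ} (hn : 1 ≤ n) (hT : n ≤ T) (hTD : T ≤ D * n) (r : ℝ) (hr : r ≤ T) :
    1 / ((T.factorial : ℝ)) ^ 2 ≤ (Real.exp (2 * D)) ^ n * (n : ℝ) ^ (- (2 * r)) := by
  have hn' : (1 : ℝ) ≤ n := by exact_mod_cast hn
  have hn0 : (0 : ℝ) < n := by linarith
  have hT' : (n : ℝ) ≤ T := by exact_mod_cast hT
  have hTf : (0 : ℝ) < T.factorial := by exact_mod_cast Nat.factorial_pos T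
  have h1 : (T : ℝ) ^ T / T.factorial ≤ Real.exp T := Real.pow_div_factorial_le_exp _ (by positivity) T
  have h2 : (n : ℝ) ^ r ≤ T.factorial * Real.exp (D * n) := by
    calc (n : ℝ) ^ r ≤ (n : ℝ) ^ (T : ℝ) := Real.rpow_le_rpow_of_exponent_le hn' hr
      _ = (n : ℝ) ^ T := Real.rpow_natCast _ _
      _ ≤ (T : ℝ) ^ T := pow_le_pow_left₀ hn0.le hT' T
      _ ≤ T.factorial * Real.exp T := by
          rw [div_le_iff₀ hTf] at h1
          rw [mul_comm]; exact h1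
      _ ≤ T.factorial * Real.exp (D * n) := by
          refine mul_le_mul_of_nonneg_left (Real.exp_le_exp.2 ?_) hTf.le
          exact_mod_cast hTD
  have h3 : (n : ℝ) ^ (2 * r) ≤ (T.factorial : ℝ) ^ 2 * (Real.exp (2 * D)) ^ n := by
    have e1 : (n : ℝ) ^ (2 * r) = ((n : ℝ) ^ r) ^ 2 := by
      rw [mul_comm, Real.rpow_mul hn0.le]
      norm_num
    have e2 : (Real.exp (2 * D)) ^ n = (Real.exp (D * n)) ^ 2 := by
      rw [← Real.exp_nat_mul, ← Real.exp_nat_mul]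
      congr 1
      push_cast
      ring
    rw [e1, e2, ← mul_pow]
    exact pow_le_pow_left₀ (by positivity) h2 2
  rw [Real.rpow_neg hn0.le, ← div_eq_mul_inv, div_le_div_iff₀ (by positivity) (by positivity), one_mul]
  linarith [h3]

theorem series_le (a : ℂ) (f : ℕ → ℂ) (T : ℕ) (c E : ℝ) (hc : 0 ≤ c) (hE : 0 ≤ E) (h : HasSum f a)
    (h0 : ∀ j < T, f j = 0) (hf : ∀ j, ‖f j‖ ≤ c * (E ^ j / (j.factorial : ℝ) ^ 2)) :
    ‖a‖ ≤ c * (E ^ T * (1 / (T.factorial : ℝ) ^ 2) * Real.exp E) := by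
  have h1 : HasSum (fun i => f (i + T)) a := by
    have h2 := (hasSum_nat_add_iff' T).2 h
    rw [Finset.sum_eq_zero (fun j hj => h0 j (Finset.mem_range.1 hj)), sub_zero] at h2
    exact h2
  rw [← h1.tsum_eq]
  have h3 : HasSum (fun i : ℕ => E ^ i / (i.factorial : ℝ)) (Real.exp E) := by
    rw [Real.exp_eq_exp_ℝ]
    exact NormedSpace.expSeries_div_hasSum_exp E
  have h4 := h3.mul_left (c * (E ^ T * (1 / (T.factorial : ℝ) ^ 2)))
  have h5 : c * (E ^ T * (1 / (T.factorial : ℝ) ^ 2)) * Real.exp E =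
      c * (E ^ T * (1 / (T.factorial : ℝ) ^ 2) * Real.exp E) := by ring
  rw [h5] at h4
  refine tsum_of_norm_bounded h4 fun i => ?_
  refine (hf (i + T)).trans ?_
  rw [mul_assoc]
  refine mul_le_mul_of_nonneg_left ?_ hc
  have hT : (0 : ℝ) < T.factorial := by exact_mod_cast Nat.factorial_pos T
  have hi : (1 : ℝ) ≤ i.factorial := by exact_mod_cast Nat.factorial_pos i
  have hiT : (T.factorial : ℝ) * i.factorial ≤ (i + T).factorial := by
    have : i.factorial * T.factorial ≤ (i + T).factorial :=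
      Nat.le_of_dvd (Nat.factorial_pos _) (Nat.factorial_mul_factorial_dvd_factorial_add i T)
    rw [mul_comm]
    exact_mod_cast this
  have h6 : (T.factorial : ℝ) ^ 2 * i.factorial ≤ ((i + T).factorial : ℝ) ^ 2 := by
    calc (T.factorial : ℝ) ^ 2 * i.factorial ≤ (T.factorial : ℝ) ^ 2 * (i.factorial : ℝ) ^ 2 := by
          refine mul_le_mul_of_nonneg_left ?_ (by positivity)
          nlinarith
      _ = ((T.factorial : ℝ) * i.factorial) ^ 2 := by ring
      _ ≤ ((i + T).factorial : ℝ) ^ 2 := pow_le_pow_left₀ (by positivity) hiT 2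
  calc E ^ (i + T) / ((i + T).factorial : ℝ) ^ 2 ≤ E ^ (i + T) / ((T.factorial : ℝ) ^ 2 * i.factorial) := by
        exact div_le_div_of_nonneg_left (by positivity) (by positivity) h6
    _ = E ^ T * (1 / (T.factorial : ℝ) ^ 2) * (E ^ i / i.factorial) := by
        rw [pow_add]
        field_simp

theorem up : S_UP := by
  intro hB hPS N s K w hN hs hK
  set R : ℝ := ‖exp w‖ with hR
  have hR0 : 0 ≤ R := norm_nonneg _
  set E : ℝ := 4 * ((N : ℝ) + 1) ^ 2 * Real.exp 1 * R with hE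
  have hE0 : 0 ≤ E := by positivity
  set E' : ℝ := max E 1 with hE'
  have hE'1 : 1 ≤ E' := le_max_right _ _
  set q : ℕ := N ^ 2 + N with hq
  have hN1 : (1 : ℝ) ≤ N := by exact_mod_cast hN
  refine ⟨max 1 (((N : ℝ) + 1) * 2 * K * (2 ^ (q + 1) * (q.factorial : ℝ)) * E' ^ (2 * (N + 1)) *
    Real.exp (2 * ((2 * (N + 1) : ℕ) : ℝ)) * Real.exp E), le_max_left _ _, ?_⟩
  intro n k P hn hk hdeg hcoef hX
  have hn' : (1 : ℝ) ≤ n := by exact_mod_cast hn
  have hn0 : (0 : ℝ) < n := by linarith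
  obtain ⟨hsum, hlam⟩ := hPS hB N P
  set T : ℕ := TT N s n with hT
  have hms : n / s ≤ n := Nat.div_le_self n s
  have hmr : ((n / s : ℕ) : ℝ) ≤ (n : ℝ) / s := Nat.cast_div_le
  have hprod : (N + 1) * (n + 1) = N * n + N + n + 1 := by ring
  have hNn : 1 * n ≤ N * n := Nat.mul_le_mul_right n hN
  have hTn : n ≤ T := by
    rw [hT]
    unfold TT
    rw [hprod]
    omega
  have hT2 : T ≤ (2 * (N + 1)) * n := by
    rw [hT]
    unfold TT
    rw [hprod]
    have e1 : 2 * (N + 1) * n = 2 * (N * n) + 2 * n := by ring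
    have e2 : N ≤ N * n := Nat.le_mul_of_pos_right N (by omega)
    rw [e1]
    refine (Nat.sub_le _ _).trans ?_
    have e3 : 1 ≤ N * n := Nat.mul_pos (by omega) (by omega)
    have e4 : N * n + N + n + 1 ≤ 2 * (N * n) + 2 * n := by omega
    exact e4
  have hTr : ((N : ℝ) + 1) * n - n / s ≤ T := by
    have e3 : (N + 1) * n ≤ T + n / s := by
      rw [hT]
      unfold TT
      rw [hprod]
      have e1 : (N + 1) * n = N * n + n := by ring
      rw [e1]
      generalize n / s = m at hms ⊢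
      omega
    have e4 : (((N + 1) * n : ℕ) : ℝ) ≤ ((T + n / s : ℕ) : ℝ) := by exact_mod_cast e3
    push_cast at e4
    linarith
  have hdvd := PowerSeries.X_pow_dvd_iff.1 hX
  set c : ℝ := ((N : ℝ) + 1) * (n + 1) * K ^ n * (n.factorial : ℝ) ^ 2 * (k.factorial : ℝ) with hc
  have hc0 : 0 ≤ c := by positivity
  have key := series_le _ _ T c E hc0 hE0 (hsum k w) (fun j hj => by
    rw [hdvd j hj]
    simp) (fun j => by
    have h1 := hlam n (K ^ n) (by positivity) hdeg hcoef j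
    have h2 : (j : ℝ) ^ k ≤ k.factorial * Real.exp 1 ^ j := by
      have h3 := Real.pow_div_factorial_le_exp (j : ℝ) (by positivity) k
      rw [div_le_iff₀ (by positivity)] at h3
      rw [← Real.exp_nat_mul, mul_one, mul_comm]
      exact h3
    rw [norm_mul, norm_mul, norm_pow, norm_pow, ← hR]
    have h4 : ‖(((PowerSeries.coeff j (LamF N P) : ℚ) : ℂ))‖ = |((PowerSeries.coeff j (LamF N P) : ℚ) : ℝ)| := by
      rw [← Real.norm_eq_abs, ← Complex.norm_real]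
      norm_num
    have h5 : ‖(j : ℂ)‖ = (j : ℝ) := by simp
    rw [h4, h5]
    calc |((PowerSeries.coeff j (LamF N P) : ℚ) : ℝ)| * (j : ℝ) ^ k * R ^ j
        ≤ ((N + 1) * (n + 1) * K ^ n * (n.factorial : ℝ) ^ 2 * (4 * ((N : ℝ) + 1) ^ 2) ^ j /
            (j.factorial : ℝ) ^ 2) * (k.factorial * Real.exp 1 ^ j) * R ^ j := by
          gcongr
      _ = c * (E ^ j / (j.factorial : ℝ) ^ 2) := by
          have e1 : E ^ j = (4 * ((N : ℝ) + 1) ^ 2) ^ j * Real.exp 1 ^ j * R ^ j := by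
            rw [hE, mul_pow (4 * ((N : ℝ) + 1) ^ 2 * Real.exp 1) R j,
              mul_pow (4 * ((N : ℝ) + 1) ^ 2) (Real.exp 1) j]
          rw [hc, e1]
          generalize (4 * ((N : ℝ) + 1) ^ 2) ^ j = X1
          generalize Real.exp 1 ^ j = X2
          generalize R ^ j = X3
          ring)
  refine key.trans ?_
  have b1 : ((N : ℝ) + 1) ≤ ((N : ℝ) + 1) ^ n := le_self_pow₀ (by linarith) (by omega)
  have b2 : ((n : ℝ) + 1) ≤ 2 ^ n := by
    have : n + 1 ≤ 2 ^ n := Nat.lt_two_pow_self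
    exact_mod_cast this
  have b4 : (n.factorial : ℝ) ^ 2 ≤ (n : ℝ) ^ (2 * (n : ℝ)) := by
    have e1 : (n.factorial : ℝ) ≤ (n : ℝ) ^ n := by exact_mod_cast Nat.factorial_le_pow n
    have e2 : (n : ℝ) ^ (2 * (n : ℝ)) = ((n : ℝ) ^ n) ^ 2 := by
      rw [mul_comm, Real.rpow_mul hn0.le]
      norm_num
    rw [e2]
    exact pow_le_pow_left₀ (by positivity) e1 2
  have b5 : (k.factorial : ℝ) ≤ (2 ^ (q + 1) * (q.factorial : ℝ)) ^ n * (n : ℝ) ^ ((n : ℝ) / s) :=
    fac_le hn hms (by omega) _ hmr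
  have b6 : E ^ T ≤ (E' ^ (2 * (N + 1))) ^ n := by
    calc E ^ T ≤ E' ^ T := pow_le_pow_left₀ hE0 (le_max_left _ _) T
      _ ≤ E' ^ ((2 * (N + 1)) * n) := pow_le_pow_right₀ hE'1 hT2
      _ = (E' ^ (2 * (N + 1))) ^ n := pow_mul _ _ _
  have b7 : 1 / (T.factorial : ℝ) ^ 2 ≤ (Real.exp (2 * ((2 * (N + 1) : ℕ) : ℝ))) ^ n *
      (n : ℝ) ^ (- (2 * (((N : ℝ) + 1) * n - n / s))) := inv_fac_le hn hTn hT2 _ hTr
  have b8 : Real.exp E ≤ (Real.exp E) ^ n := le_self_pow₀ (Real.one_le_exp hE0) (by omega)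
  have b9 : (n : ℝ) ^ (2 * (n : ℝ)) * (n : ℝ) ^ ((n : ℝ) / s) *
      (n : ℝ) ^ (- (2 * (((N : ℝ) + 1) * n - n / s))) = (n : ℝ) ^ ((3 / (s : ℝ) - 2 * N) * n) := by
    rw [← Real.rpow_add hn0, ← Real.rpow_add hn0]
    congr 1
    ring
  rw [← b9, hc]
  calc ((N : ℝ) + 1) * (n + 1) * K ^ n * (n.factorial : ℝ) ^ 2 * (k.factorial : ℝ) *
        (E ^ T * (1 / (T.factorial : ℝ) ^ 2) * Real.exp E)
      ≤ ((N : ℝ) + 1) ^ n * 2 ^ n * K ^ n * (n : ℝ) ^ (2 * (n : ℝ)) *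
        ((2 ^ (q + 1) * (q.factorial : ℝ)) ^ n * (n : ℝ) ^ ((n : ℝ) / s)) *
        ((E' ^ (2 * (N + 1))) ^ n * ((Real.exp (2 * ((2 * (N + 1) : ℕ) : ℝ))) ^ n *
      (n : ℝ) ^ (- (2 * (((N : ℝ) + 1) * n - n / s)))) * (Real.exp E) ^ n) := by
        gcongr
    _ = (((N : ℝ) + 1) * 2 * K * (2 ^ (q + 1) * (q.factorial : ℝ)) * E' ^ (2 * (N + 1)) *
        Real.exp (2 * ((2 * (N + 1) : ℕ) : ℝ)) * Real.exp E) ^ n *
        ((n : ℝ) ^ (2 * (n : ℝ)) * (n : ℝ) ^ ((n : ℝ) / s) *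
          (n : ℝ) ^ (- (2 * (((N : ℝ) + 1) * n - n / s)))) := by
        simp only [mul_pow]
        ring
    _ ≤ _ := by
        refine mul_le_mul_of_nonneg_right (pow_le_pow_left₀ (by positivity) (le_max_right _ _) n)
          (by positivity)

end Pool.Agent.Y542.SG
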