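import Pool.Agent.Y976.SG.Stm

set_option autoImplicit false

/-!
# SG-AV1 (helper542 for helper976, job 11304): the first averaging
-/

namespace Pool.Agent.Y542.SG.AV1

open Pool.Agent.Y976.SG

lemma psi_arctan (x : ℝ) : Psi (x / √(1 + x ^ 2)) = Real.arctan x - x / (1 + x ^ 2) := by
  unfold Psi
  rw [← Real.arctan_eq_arcsin]
  have h : 0 < 1 + x ^ 2 := by positivity
  have h1 : 1 - (x / √(1 + x ^ 2)) ^ 2 = 1 / (1 + x ^ 2) := by
    rw [div_pow, Real.sq_sqrt h.le]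
    field_simp
    ring
  rw [h1, Real.sqrt_div zero_le_one, Real.sqrt_one]
  have h2 : x / √(1 + x ^ 2) * (1 / √(1 + x ^ 2)) = x / (1 + x ^ 2) := by
    rw [div_mul_div_comm, mul_one, Real.mul_self_sqrt h.le]
  rw [h2]

lemma vr_eq (t : ℝ) (ht : t ^ 2 < 1) (ρ : ℝ) :
    vr ρ t = (ρ * (t / √(1 - t ^ 2))) / √(1 + (ρ * (t / √(1 - t ^ 2))) ^ 2) := by
  unfold vr
  have h0 : 0 < 1 - t ^ 2 := by linarith
  have h1 : 0 < √(1 - t ^ 2) := Real.sqrt_pos.2 h0
  have h2 : 1 - (1 - ρ ^ 2) * t ^ 2 = (1 - t ^ 2) * (1 + (ρ * (t / √(1 - t ^ 2))) ^ 2) := by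
    rw [mul_pow, div_pow, Real.sq_sqrt h0.le]
    field_simp
    ring
  have h3 : 0 < √(1 + (ρ * (t / √(1 - t ^ 2))) ^ 2) := Real.sqrt_pos.2 (by positivity)
  rw [h2, Real.sqrt_mul h0.le]
  field_simp

lemma vr_one_sq (t : ℝ) (ht : t ^ 2 = 1) (ρ : ℝ) (hρ : 0 < ρ) : vr ρ t = t := by
  unfold vr
  have h : 1 - (1 - ρ ^ 2) * t ^ 2 = ρ ^ 2 := by rw [ht]; ring
  rw [h, Real.sqrt_sq hρ.le]
  field_simp

lemma vr_one (t : ℝ) : vr 1 t = t := by
  unfold vr
  simp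

lemma hasDeriv (t : ℝ) (ht : |t| ≤ 1) (ρ : ℝ) (hρ : 0 < ρ) :
    HasDerivAt (fun ρ => -(Real.arcsin (vr ρ t) / ρ)) (Psi (vr ρ t) / ρ ^ 2) ρ := by
  have ht2 : t ^ 2 ≤ 1 := (sq_le_one_iff_abs_le_one t).2 ht
  rcases lt_or_eq_of_le ht2 with h | h
  · obtain ⟨k, hk⟩ : ∃ k, k = t / √(1 - t ^ 2) := ⟨_, rfl⟩
    have hv : ∀ ρ : ℝ, vr ρ t = (ρ * k) / √(1 + (ρ * k) ^ 2) := by
      intro ρ
      rw [hk]
      exact vr_eq t h ρ
    have e1 : (fun ρ => -(Real.arcsin (vr ρ t) / ρ)) = fun ρ => -(Real.arctan (ρ * k) / ρ) := by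
      funext ρ
      rw [hv, ← Real.arctan_eq_arcsin]
    rw [e1, hv, psi_arctan]
    have h1 : HasDerivAt (fun ρ : ℝ => ρ * k) k ρ := by
      simpa using (hasDerivAt_id ρ).mul_const k
    have h2 := ((h1.arctan).div (hasDerivAt_id ρ) hρ.ne').neg
    refine h2.congr_deriv ?_
    simp only [id]
    have h3 : 0 < 1 + (ρ * k) ^ 2 := by positivity
    field_simp
    ring
  · have h1 : HasDerivAt (fun ρ : ℝ => -(Real.arcsin t / ρ)) (Real.arcsin t / ρ ^ 2) ρ := by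
      have h2 := ((hasDerivAt_const ρ (Real.arcsin t)).div (hasDerivAt_id ρ) hρ.ne').neg
      refine h2.congr_deriv ?_
      simp only [id]
      field_simp
      ring
    have h3 : Psi (vr ρ t) = Real.arcsin t := by
      rw [vr_one_sq t h ρ hρ]
      unfold Psi
      rw [h]
      simp
    rw [h3]
    refine h1.congr_of_eventuallyEq ?_
    filter_upwards [lt_mem_nhds hρ] with x hx
    rw [vr_one_sq t h x hx]

theorem main : S_AV1 := by
  intro ι _ c t M ht hM r hr hr1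
  obtain ⟨G, hG⟩ : ∃ G : ℝ → ℝ, G = fun ρ => ∑ i, c i * (-(Real.arcsin (vr ρ (t i)) / ρ)) := ⟨_, rfl⟩
  have hGd : ∀ ρ, 0 < ρ → HasDerivAt G ((∑ i, c i * Psi (vr ρ (t i))) / ρ ^ 2) ρ := by
    intro ρ hρ
    rw [hG]
    have h := HasDerivAt.fun_sum (u := Finset.univ) fun i _ => (hasDeriv (t i) (ht i) ρ hρ).const_mul (c i)
    refine h.congr_deriv ?_
    rw [Finset.sum_div]
    exact Finset.sum_congr rfl fun i _ => by ring
  have hHd : ∀ ρ, 0 < ρ → HasDerivAt (fun ρ : ℝ => -(M / ρ)) (M / ρ ^ 2) ρ := by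
    intro ρ hρ
    have h2 := ((hasDerivAt_const ρ M).div (hasDerivAt_id ρ) hρ.ne').neg
    refine h2.congr_deriv ?_
    simp only [id]
    field_simp
    ring
  have key : ∀ σ : ℝ, |σ| = 1 → σ * (G 1 - G r) ≤ M / r - M := by
    intro σ hσ
    have hd : ∀ ρ, 0 < ρ → HasDerivAt (fun ρ => -(M / ρ) - σ * G ρ)
        (M / ρ ^ 2 - σ * ((∑ i, c i * Psi (vr ρ (t i))) / ρ ^ 2)) ρ :=
      fun ρ hρ => (hHd ρ hρ).sub ((hGd ρ hρ).const_mul σ)
    have hmono : MonotoneOn (fun ρ => -(M / ρ) - σ * G ρ) (Set.Icc r 1) := by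
      refine monotoneOn_of_deriv_nonneg (convex_Icc r 1) ?_ ?_ ?_
      · intro ρ hρ
        exact (hd ρ (lt_of_lt_of_le hr hρ.1)).continuousAt.continuousWithinAt
      · intro ρ hρ
        rw [interior_Icc] at hρ
        exact (hd ρ (hr.trans hρ.1)).differentiableAt.differentiableWithinAt
      · intro ρ hρ
        rw [interior_Icc] at hρ
        have hρ0 : 0 < ρ := hr.trans hρ.1
        rw [(hd ρ hρ0).deriv, ← mul_div_assoc, ← sub_div]
        refine div_nonneg ?_ (by positivity)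
        have h1 := hM ρ hρ0 hρ.2.le
        have h2 : σ * ∑ i, c i * Psi (vr ρ (t i)) ≤ |∑ i, c i * Psi (vr ρ (t i))| := by
          refine (le_abs_self _).trans ?_
          rw [abs_mul, hσ, one_mul]
        linarith
    have h := hmono (Set.left_mem_Icc.2 hr1.le) (Set.right_mem_Icc.2 hr1.le) hr1.le
    simp only [div_one] at h
    linarith
  have h1 := key 1 (by simp)
  have h2 := key (-1) (by simp)
  have e1 : G 1 - G r = (∑ i, c i * (Real.arcsin (vr r (t i)) - r * Real.arcsin (t i))) / r := by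
    rw [hG]
    simp only [vr_one, div_one]
    rw [← Finset.sum_sub_distrib, Finset.sum_div]
    refine Finset.sum_congr rfl fun i _ => ?_
    field_simp
    ring
  obtain ⟨S, hS⟩ : ∃ S, S = ∑ i, c i * (Real.arcsin (vr r (t i)) - r * Real.arcsin (t i)) := ⟨_, rfl⟩
  rw [← hS] at e1 ⊢
  rw [e1] at h1 h2
  have h3 : M / r - M = ((1 - r) * M) / r := by field_simp
  rw [h3] at h1 h2
  rw [abs_le]
  constructor
  · have h4 : (-1) * (S / r) = (-S) / r := by ring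
    rw [h4, div_le_div_iff_of_pos_right hr] at h2
    linarith
  · rw [one_mul, div_le_div_iff_of_pos_right hr] at h1
    exact h1

end Pool.Agent.Y542.SG.AV1
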